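import Pool.Agent.N644.CZ.PtA
import Pool.Agent.N784.CZ.Stm2

/-!
# CZ/E1: the statement `StPt` (helper644 for helper784)
-/

set_option autoImplicit false

namespace Pool.Agent.N644.CZ

theorem t_pt : Pool.Agent.N784.CZ.StPt := pt_main

end Pool.Agent.N644.CZ
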