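import Pool.Agent.N786.D.Rgt

/-!
# CZ/E1: a pointwise bound from mean squares over short windows (helper644 for helper784; adapted
from `Pool.Agent.N786.D.QQ_right` of helper786)
-/

set_option autoImplicit false

namespace Pool.Agent.N644.CZ

open MeasureTheory Set Filter Topology Complex
open Pool.Agent.R399.TW (pt pt_re pt_im pt_cont)
open Pool.Agent.N786.D (kap kap_cont kap_nn kap_poly3 cB cB_nn QQ cauchy_le csE lint_shift)

/-- the kernel does not change much over a distance `r` -/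
lemma kap_near (B : ℕ) {r : ℝ} (hr : 0 < r) {v u : ℝ} (hu0 : 0 ≤ u) (hu : u ≤ r) :
    kap B r v ≤ 3 ^ B * kap B r (v - u) := by
  unfold kap
  have h1 : r ^ 2 + (v - u) ^ 2 ≤ 3 * (r ^ 2 + v ^ 2) := by
    nlinarith [sq_nonneg (v + u), sq_nonneg (v), mul_nonneg hu0 (sub_nonneg.2 hu), sq_nonneg (r - u)]
  have h2 : (r ^ 2 + (v - u) ^ 2) ^ B ≤ 3 ^ B * (r ^ 2 + v ^ 2) ^ B := by
    rw [← mul_pow]
    exact pow_le_pow_left₀ (by positivity) h1 B
  rw [mul_div_assoc', div_le_div_iff₀ (by positivity) (by positivity)]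
  have h3 : 0 ≤ (2 * r) ^ (2 * B - 1) := by positivity
  calc (2 * r) ^ (2 * B - 1) * (r ^ 2 + (v - u) ^ 2) ^ B ≤
      (2 * r) ^ (2 * B - 1) * (3 ^ B * (r ^ 2 + v ^ 2) ^ B) := mul_le_mul_of_nonneg_left h2 h3
    _ = _ := by ring

theorem pt_core {ι : Type} {I : Finset ι} {f : ι → ℂ → ℂ} (hf : ∀ i, Differentiable ℂ (f i))
    {a μ lam R Q : ℝ} {m B E : ℕ} (hR : 1 ≤ R) (hQ : 0 ≤ Q) (hB : m + 3 ≤ 2 * B - 1)
    (hBE : E + 2 ≤ 2 * B) (hml : μ < lam)
    (hgr : ∀ i ∈ I, ∃ G : ℝ, ∀ z : ℂ, a ≤ z.re →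
      ‖f i z‖ ≤ G * (1 + |z.im|) ^ m * Real.exp (-(lam * z.re)))
    (hms : ∀ t₀ : ℝ, QQ I f a (1 / R) t₀ ≤ ENNReal.ofReal (Q * (1 + |t₀|) ^ E))
    {s : ℂ} (hs1 : a + 1 / R ≤ s.re) (hs3 : s.re ≤ a + 3) :
    ∑ i ∈ I, ‖f i s‖ ^ 2 ≤ (cB B 0 * 3 ^ B * (3 ^ E * cB B E)) * (R * Q) *
      Real.exp (-(2 * (μ * (s.re - a)))) * (1 + |s.im|) ^ E := by
  have hR0 : 0 < R := by linarith
  obtain ⟨h, hh⟩ : ∃ h : ℝ, h = 1 / R := ⟨_, rfl⟩
  have hh0 : 0 < h := by rw [hh]; positivity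
  rw [← hh] at hms hs1
  obtain ⟨r, hr⟩ : ∃ r : ℝ, r = s.re - a := ⟨_, rfl⟩
  have hhr : h ≤ r := by rw [hr]; linarith
  have hr0 : 0 < r := hh0.trans_le hhr
  have hr3 : r ≤ 3 := by rw [hr]; linarith
  obtain ⟨t, ht⟩ : ∃ t : ℝ, t = s.im := ⟨_, rfl⟩
  rw [← hr, ← ht]
  set κ := kap B r with hκ
  have hκc : Continuous κ := kap_cont B hr0
  have hκ0 : ∀ v, 0 ≤ κ v := kap_nn B hr0
  obtain ⟨k1, k2⟩ := kap_poly3 (B := B) (p := 0) (by omega) hr0 hr3
  simp only [pow_zero, mul_one, one_mul] at k1 k2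
  obtain ⟨k3, k4⟩ := kap_poly3 (B := B) (p := E) hBE hr0 hr3
  rw [← hκ] at k1 k2 k3 k4
  obtain ⟨C0, hC0⟩ : ∃ C0 : ℝ, C0 = cB B 0 := ⟨_, rfl⟩
  obtain ⟨C1, hC1⟩ : ∃ C1 : ℝ, C1 = 3 ^ E * cB B E := ⟨_, rfl⟩
  have hC00 : 0 ≤ C0 := by rw [hC0]; exact cB_nn B 0
  have hC10 : 0 ≤ C1 := by rw [hC1]; have := cB_nn B E; positivity
  rw [← hC0] at k2
  rw [← hC1] at k4
  rw [← hC0, ← hC1]
  have hfc : ∀ i, Continuous fun t : ℝ => ‖f i (pt a t)‖ := fun i =>
    ((hf i).continuous.comp (pt_cont _)).norm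
  obtain ⟨s₀, hs₀⟩ : ∃ s₀ : ℝ, s₀ = Real.exp (-(μ * r)) := ⟨_, rfl⟩
  have hs0 : 0 < s₀ := by rw [hs₀]; exact Real.exp_pos _
  have hs2 : s₀ ^ 2 = Real.exp (-(2 * (μ * r))) := by
    rw [hs₀, ← Real.exp_nat_mul]; congr 1; push_cast; ring
  -- pointwise
  have hpt : ∀ i ∈ I, ENNReal.ofReal (‖f i s‖ ^ 2) ≤
      ENNReal.ofReal (s₀ ^ 2 * C0) *
        ∫⁻ v, ENNReal.ofReal (κ v * ‖f i (pt a (t + v))‖ ^ 2) := by
    intro i hi
    obtain ⟨G, hG⟩ := hgr i hi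
    obtain ⟨i1, i2⟩ := cauchy_le (hf i) hB hml hG (s := s) (by linarith)
    rw [← hr, ← ht, ← hκ] at i1 i2
    rw [← hs₀] at i2
    have hcs := csE (f := fun v => ‖f i (pt a (t + v))‖) (w := κ)
      ((hfc i).comp (by fun_prop : Continuous fun v : ℝ => t + v))
      (fun v => norm_nonneg _) hκ0 k1 hκc i1
    obtain ⟨Z, hZ⟩ : ∃ Z : ℝ, Z = ∫ v : ℝ, ‖f i (pt a (t + v))‖ * κ v := ⟨_, rfl⟩
    rw [← hZ] at hcs i2
    have e1 : ‖f i s‖ ^ 2 ≤ s₀ ^ 2 * Z ^ 2 := by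
      rw [← mul_pow]
      exact pow_le_pow_left₀ (norm_nonneg _) i2 2
    refine (ENNReal.ofReal_le_ofReal e1).trans ?_
    rw [ENNReal.ofReal_mul (sq_nonneg s₀), ENNReal.ofReal_mul (sq_nonneg s₀), mul_assoc]
    gcongr
    refine hcs.trans ?_
    have e6 : ENNReal.ofReal (∫ v, κ v) ≤ ENNReal.ofReal C0 := ENNReal.ofReal_le_ofReal k2
    refine mul_le_mul' e6 (le_of_eq ?_)
    refine lintegral_congr fun v => ?_
    rw [mul_comm]
  -- averaging over the shift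
  have hmeas : ∀ i, Measurable (Function.uncurry fun u w : ℝ =>
      ENNReal.ofReal (κ w * ‖f i (pt a (u + (t + w)))‖ ^ 2)) := by
    intro i
    refine Measurable.ennreal_ofReal (Continuous.measurable ?_)
    have c1 : Continuous fun q : ℝ × ℝ => ‖f i (pt a (q.1 + (t + q.2)))‖ :=
      (hfc i).comp (by fun_prop)
    have c3 : Continuous fun q : ℝ × ℝ => κ q.2 := hκc.comp (by fun_prop)
    exact c3.mul (c1.pow 2)
  have hvol : volume (Icc (0 : ℝ) h) = ENNReal.ofReal h := by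
    rw [Real.volume_Icc, sub_zero]
  have hav : ∀ i ∈ I, ENNReal.ofReal h * ∫⁻ v, ENNReal.ofReal (κ v * ‖f i (pt a (t + v))‖ ^ 2) ≤
      ENNReal.ofReal (3 ^ B) * ∫⁻ w, ENNReal.ofReal (κ w) *
        ∫⁻ u in Icc 0 h, ENNReal.ofReal (‖f i (pt a (u + (t + w)))‖ ^ 2) := by
    intro i _
    have g1 : ENNReal.ofReal h * ∫⁻ v, ENNReal.ofReal (κ v * ‖f i (pt a (t + v))‖ ^ 2) =
        ∫⁻ _ in Icc (0 : ℝ) h, ∫⁻ v, ENNReal.ofReal (κ v * ‖f i (pt a (t + v))‖ ^ 2) := by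
      rw [setLIntegral_const, hvol, mul_comm]
    have g2 : ∀ u ∈ Icc (0 : ℝ) h, ∫⁻ v, ENNReal.ofReal (κ v * ‖f i (pt a (t + v))‖ ^ 2) ≤
        ENNReal.ofReal (3 ^ B) *
          ∫⁻ w, ENNReal.ofReal (κ w * ‖f i (pt a (u + (t + w)))‖ ^ 2) := by
      intro u hu
      rw [← lintegral_const_mul _ ((hmeas i).of_uncurry_left)]
      rw [← lintegral_sub_right_eq_self (fun w => ENNReal.ofReal (3 ^ B) *
        ENNReal.ofReal (κ w * ‖f i (pt a (u + (t + w)))‖ ^ 2)) u]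
      refine lintegral_mono fun v => ?_
      rw [← ENNReal.ofReal_mul (by positivity)]
      refine ENNReal.ofReal_le_ofReal ?_
      have e1 : u + (t + (v - u)) = t + v := by ring
      rw [e1, ← mul_assoc]
      exact mul_le_mul_of_nonneg_right (kap_near B hr0 hu.1 (hu.2.trans hhr)) (sq_nonneg _)
    rw [g1]
    refine (setLIntegral_mono' measurableSet_Icc g2).trans (le_of_eq ?_)
    have m3 : Measurable fun u : ℝ => ∫⁻ w,
        ENNReal.ofReal (κ w * ‖f i (pt a (u + (t + w)))‖ ^ 2) := (hmeas i).lintegral_prod_right'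
    rw [lintegral_const_mul _ m3, lintegral_lintegral_swap (hmeas i).aemeasurable]
    congr 1
    refine lintegral_congr fun w => ?_
    have m4 : Measurable fun u : ℝ => ENNReal.ofReal (‖f i (pt a (u + (t + w)))‖ ^ 2) :=
      Measurable.ennreal_ofReal
        (((hfc i).comp (by fun_prop : Continuous fun u : ℝ => u + (t + w))).pow 2).measurable
    rw [← lintegral_const_mul _ m4]
    refine lintegral_congr fun u => ?_
    rw [← ENNReal.ofReal_mul (hκ0 w)]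
  -- the sum
  have hsum : ∑ i ∈ I, ∫⁻ w, ENNReal.ofReal (κ w) *
        ∫⁻ u in Icc 0 h, ENNReal.ofReal (‖f i (pt a (u + (t + w)))‖ ^ 2) ≤
      ENNReal.ofReal (Q * (1 + |t|) ^ E * C1) := by
    rw [← lintegral_finsetSum']
    · have e2 : ∀ w : ℝ, ∑ i ∈ I, ENNReal.ofReal (κ w) *
          ∫⁻ u in Icc 0 h, ENNReal.ofReal (‖f i (pt a (u + (t + w)))‖ ^ 2) ≤
          ENNReal.ofReal (Q * (1 + |t|) ^ E * (κ w * (2 + |w|) ^ E)) := by
        intro w
        rw [← Finset.mul_sum]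
        have e3 : ∑ i ∈ I, ∫⁻ u in Icc 0 h, ENNReal.ofReal (‖f i (pt a (u + (t + w)))‖ ^ 2) =
            QQ I f a h (t + w) := by
          unfold QQ
          refine Finset.sum_congr rfl fun i _ => ?_
          have e4 := lint_shift (fun t => ENNReal.ofReal (‖f i (pt a t)‖ ^ 2)) 0 h (t + w)
          rw [zero_add, zero_add] at e4
          exact e4
        rw [e3]
        refine (mul_le_mul_right (hms (t + w)) _).trans ?_
        rw [← ENNReal.ofReal_mul (hκ0 w)]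
        refine ENNReal.ofReal_le_ofReal ?_
        have e5 : (1 + |t + w|) ^ E ≤ (1 + |t|) ^ E * (2 + |w|) ^ E := by
          rw [← mul_pow]
          refine pow_le_pow_left₀ (by positivity) ?_ E
          have := abs_add_le t w
          nlinarith [abs_nonneg t, abs_nonneg w, mul_nonneg (abs_nonneg t) (abs_nonneg w)]
        calc κ w * (Q * (1 + |t + w|) ^ E) ≤
            κ w * (Q * ((1 + |t|) ^ E * (2 + |w|) ^ E)) := by
              have := hκ0 w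
              gcongr
          _ = _ := by ring
      refine (lintegral_mono e2).trans ?_
      have hn : ∀ w : ℝ, 0 ≤ Q * (1 + |t|) ^ E * (κ w * (2 + |w|) ^ E) := fun w => by
        have := hκ0 w
        positivity
      rw [← ofReal_integral_eq_lintegral_ofReal (k3.const_mul _) (Eventually.of_forall hn),
        integral_const_mul]
      exact ENNReal.ofReal_le_ofReal (mul_le_mul_of_nonneg_left k4 (by positivity))
    · intro i _
      refine AEMeasurable.mul (hκc.measurable.ennreal_ofReal).aemeasurable ?_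
      refine Measurable.aemeasurable ?_
      have c0 : Measurable (Function.uncurry fun w u : ℝ =>
          ENNReal.ofReal (‖f i (pt a (u + (t + w)))‖ ^ 2)) := by
        refine Measurable.ennreal_ofReal (Continuous.measurable ?_)
        have c1 : Continuous fun q : ℝ × ℝ => ‖f i (pt a (q.2 + (t + q.1)))‖ :=
          (hfc i).comp (by fun_prop)
        exact c1.pow 2
      exact c0.lintegral_prod_right'
  -- assembly
  have hhR : h * R = 1 := by rw [hh]; field_simp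
  have htot : ENNReal.ofReal h * ∑ i ∈ I, ENNReal.ofReal (‖f i s‖ ^ 2) ≤
      ENNReal.ofReal (s₀ ^ 2 * C0 * (3 ^ B * (Q * (1 + |t|) ^ E * C1))) := by
    rw [Finset.mul_sum]
    calc ∑ i ∈ I, ENNReal.ofReal h * ENNReal.ofReal (‖f i s‖ ^ 2) ≤
        ∑ i ∈ I, ENNReal.ofReal (s₀ ^ 2 * C0) * (ENNReal.ofReal (3 ^ B) *
          ∫⁻ w, ENNReal.ofReal (κ w) *
            ∫⁻ u in Icc 0 h, ENNReal.ofReal (‖f i (pt a (u + (t + w)))‖ ^ 2)) := by
          refine Finset.sum_le_sum fun i hi => ?_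
          refine (mul_le_mul_right (hpt i hi) _).trans ?_
          rw [mul_left_comm]
          exact mul_le_mul_right (hav i hi) _
      _ ≤ _ := by
          rw [← Finset.mul_sum, ← Finset.mul_sum,
            ENNReal.ofReal_mul (show 0 ≤ s₀ ^ 2 * C0 by positivity),
            ENNReal.ofReal_mul (show (0 : ℝ) ≤ 3 ^ B by positivity)]
          exact mul_le_mul_right (mul_le_mul_right hsum _) _
  rw [← ENNReal.ofReal_sum_of_nonneg (fun i _ => sq_nonneg _), ← ENNReal.ofReal_mul hh0.le,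
    ENNReal.ofReal_le_ofReal_iff (by positivity)] at htot
  have hfin : ∑ i ∈ I, ‖f i s‖ ^ 2 = R * (h * ∑ i ∈ I, ‖f i s‖ ^ 2) := by
    rw [← mul_assoc, mul_comm R h, hhR, one_mul]
  rw [hfin]
  refine (mul_le_mul_of_nonneg_left htot hR0.le).trans (le_of_eq ?_)
  rw [hs2]
  ring

/-- the statement `StPt` -/
theorem pt_main (m E : ℕ) : ∃ C : ℝ, 0 ≤ C ∧ ∀ {ι : Type} (I : Finset ι) (f : ι → ℂ → ℂ),
    (∀ i, Differentiable ℂ (f i)) → ∀ (a μ lam R Q : ℝ), 1 ≤ R → 0 ≤ Q → μ < lam →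
    (∀ i ∈ I, ∃ G : ℝ, ∀ z : ℂ, a ≤ z.re →
      ‖f i z‖ ≤ G * (1 + |z.im|) ^ m * Real.exp (-(lam * z.re))) →
    (∀ t₀ : ℝ, QQ I f a (1 / R) t₀ ≤ ENNReal.ofReal (Q * (1 + |t₀|) ^ E)) →
    ∀ s : ℂ, a + 1 / R ≤ s.re → s.re ≤ a + 3 →
      ∑ i ∈ I, ‖f i s‖ ^ 2 ≤
        C * (R * Q) * Real.exp (-(2 * (μ * (s.re - a)))) * (1 + |s.im|) ^ E := by
  refine ⟨cB (m + E + 3) 0 * 3 ^ (m + E + 3) * (3 ^ E * cB (m + E + 3) E), ?_, ?_⟩
  · have := cB_nn (m + E + 3) 0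
    have := cB_nn (m + E + 3) E
    positivity
  · intro ι I f hf a μ lam R Q hR hQ hml hgr hms s hs1 hs3
    exact pt_core hf hR hQ (by omega) (by omega) hml hgr hms hs1 hs3

end Pool.Agent.N644.CZ
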